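import Mathlib
import Pool.Agent.R864.Surf3

/-!
MP_37b72a_ag, Q1: an affine surface of type A all of whose locally nilpotent derivations
vanish at a common point.  The surface is `x² y = z² + x`.
-/

set_option autoImplicit false

open Polynomial

namespace Pool.Agent.Results.MP_37b72a_ag.TypeAWithFixedPoint

open Pool.Agent.R864.Cyl Pool.Agent.R864.Surf

universe u

/-- A variety with coordinate ring `A` is of type A if `HD^*(A[u]) = A[u]`. -/
def TypeA (K : Type u) [Field K] (A : Type u) [CommRing A] [Algebra K A] : Prop :=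
  HDstar K A[X] = ⊤

/-- `g` is the exponential `∑ Dⁿ/n!` of the locally nilpotent derivation `D`. -/
def IsExp {K : Type u} [Field K] {A : Type u} [CommRing A] [Algebra K A]
    (D : Derivation K A A) (g : A ≃ₐ[K] A) : Prop :=
  ∀ (f : A) (N : ℕ), (⇑D)^[N] f = 0 →
    g f = ∑ n ∈ Finset.range N, ((n.factorial : K)⁻¹) • (⇑D)^[n] f

/-- The group `SAut` generated by the exponentials of all locally nilpotent derivations. -/
def SAut (K : Type u) [Field K] (A : Type u) [CommRing A] [Algebra K A] :
    Subgroup (A ≃ₐ[K] A) :=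
  Subgroup.closure {g | ∃ D : Derivation K A A, IsLND D ∧ IsExp D g}

/-- A `K`-point `π : A → K` is stable if it is fixed by the group `SAut`. -/
def StablePoint {K : Type u} [Field K] {A : Type u} [CommRing A] [Algebra K A]
    (π : A →ₐ[K] K) : Prop :=
  ∀ g ∈ SAut K A, ∀ f : A, π (g f) = π f

theorem stable_of_zero {K : Type u} [Field K] {A : Type u} [CommRing A] [Algebra K A]
    (π : A →ₐ[K] K) (h : ∀ D : Derivation K A A, IsLND D → ∀ f : A, π (D f) = 0) :
    StablePoint π := by
  intro g hg
  refine Subgroup.closure_induction ?_ ?_ ?_ ?_ hg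
  · rintro g ⟨D, hD, hg⟩ f
    obtain ⟨N, hN⟩ := hD f
    have hN' : (⇑D)^[N + 1] f = 0 := by
      rw [Function.iterate_succ_apply', hN, map_zero]
    rw [hg f (N + 1) hN', map_sum, Finset.sum_range_succ', Finset.sum_eq_zero, zero_add]
    · simp
    · intro n _
      rw [map_smul, Function.iterate_succ_apply', h D hD, smul_zero]
  · intro f
    rfl
  · intro a b _ _ ha hb f
    change π (a (b f)) = π f
    rw [ha, hb]
  · intro a _ ha f
    rw [← ha (a⁻¹ f)]
    change π (a (a.symm f)) = π f
    rw [AlgEquiv.apply_symm_apply]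

/-- For every field `K` of characteristic `0` there is a finitely generated `K`-domain `A`
(namely `K[x,y,z]/(x² y - z² - x)`) such that the variety `Spec A` is of type A, while the ideal
`I(Y)` generated by the images of all locally nilpotent derivations of `A` is not `A`, and there
is a `K`-point fixed by the group `SAut` (at which all locally nilpotent derivations vanish). -/
theorem result (K : Type u) [Field K] [CharZero K] :
    ∃ (A : Type u) (_ : CommRing A) (_ : IsDomain A) (_ : Algebra K A)
      (_ : Algebra.FiniteType K A),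
      TypeA K A ∧ imageIdeal K A ≠ ⊤ ∧
      ∃ π : A →ₐ[K] K, StablePoint π ∧
        ∀ D : Derivation K A A, IsLND D → ∀ f : A, π (D f) = 0 := by
  have hm : ((X : K[X]) ^ 2 * 1).Monic := by
    rw [mul_one]
    exact monic_X_pow 2
  have hdeg : ((X : K[X]) ^ 2 * 1).natDegree = 2 := by
    rw [mul_one, natDegree_X_pow]
  refine ⟨S (X ^ 2 * 1) (X * 1), inferInstance, isDomain hm, inferInstance, inferInstance,
    ?_, ?_⟩
  · -- type A
    apply HDstar_eq_top_of_X
    have h1 := cu_mem (X : K[X]) 1 1 hm
    have h2 := pX_mem ((X : K[X]) ^ 2 * 1) (X * 1) hm 1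
    have hy := C_mem_HDstar (K := K) (y ((X : K[X]) ^ 2 * 1) (X * 1))
    have hx := C_mem_HDstar (K := K) (x ((X : K[X]) ^ 2 * 1) (X * 1))
    have h3 := Subalgebra.mul_mem _ (Subalgebra.add_mem _ (Subalgebra.one_mem _)
      (Subalgebra.mul_mem _ hx hy)) h1
    have h4 := Subalgebra.mul_mem _ (Subalgebra.mul_mem _ hy hy) h2
    have h5 := Subalgebra.add_mem _ h3 h4
    convert h5 using 1
    unfold Cv Av Bv Yv
    simp only [map_one, aeval_X, map_mul, map_pow]
    ring
  · -- a common zero
    have hpt : aeval (0 : K) ((X : K[X]) ^ 2 * 1) * 0 = 0 ^ 2 + aeval (0 : K) ((X : K[X]) * 1) := by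
      simp
    let π : S ((X : K[X]) ^ 2 * 1) (X * 1) →ₐ[K] K := lift _ _ 0 0 0 hpt
    have hle : imageIdeal K (S ((X : K[X]) ^ 2 * 1) (X * 1)) ≤ RingHom.ker π := by
      refine (imageIdeal_le hm (by rw [hdeg])).trans ?_
      rw [Ideal.span_le]
      rintro b hb
      rw [SetLike.mem_coe, RingHom.mem_ker]
      rcases hb with rfl | rfl
      · rw [← aeval_algHom_apply]
        simp [π]
      · simp [π]
    have hz : ∀ D : Derivation K (S ((X : K[X]) ^ 2 * 1) (X * 1)) _, IsLND D →
        ∀ f, π (D f) = 0 := by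
      intro D hD f
      have h1 : D f ∈ RingHom.ker π := hle (Ideal.subset_span ⟨D, hD, f, rfl⟩)
      exact h1
    refine ⟨?_, π, stable_of_zero π hz, hz⟩
    · intro htop
      rw [htop] at hle
      have h1 : (1 : S ((X : K[X]) ^ 2 * 1) (X * 1)) ∈ RingHom.ker π := hle Submodule.mem_top
      rw [RingHom.mem_ker, map_one] at h1
      exact one_ne_zero h1

end Pool.Agent.Results.MP_37b72a_ag.TypeAWithFixedPoint
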